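import Pool.Agent.K3h63.IQ.Stm

/-!
# Brick NILN of project IQ: nilpotence on the tensor powers of `M`
-/

set_option autoImplicit false
set_option linter.unusedSectionVars false

open CategoryTheory Limits MonoidalCategory
open Pool.Agent.Y112.SR Pool.Agent.Y112.KD Pool.Agent.Y112.SC Pool.Agent.R905
open Pool.Agent.K3h63.IQ

namespace Pool.Agent.K3h14.IQ

universe v u w

section

variable {C : Type u} [Category.{v} C] [Preadditive C]

lemma nil_iso {X X' : C} (e : X ≅ X') (f : X ⟶ X)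
    (h : IsNilpotent (show End X' from e.inv ≫ f ≫ e.hom)) : IsNilpotent (show End X from f) := by
  obtain ⟨n, hn⟩ := h
  refine ⟨n, ?_⟩
  have h1 : (e.conj (show End X from f)) ^ n = 0 := hn
  rw [← map_pow] at h1
  have h2 := congrArg e.symm.conj h1
  rw [Iso.conj_apply, Iso.conj_apply] at h2
  simpa using h2

lemma conj_comm {X X' : C} (e : X ≅ X') {f x : X ⟶ X} {x' : X' ⟶ X'}
    (hx : x ≫ e.hom = e.hom ≫ x') (hf : f ≫ x = x ≫ f) :
    (e.inv ≫ f ≫ e.hom) ≫ x' = x' ≫ (e.inv ≫ f ≫ e.hom) := by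
  have h1 : e.inv ≫ x = x' ≫ e.inv := by
    rw [Iso.inv_comp_eq, ← Category.assoc, ← hx, Category.assoc, Iso.hom_inv_id, Category.comp_id]
  calc (e.inv ≫ f ≫ e.hom) ≫ x' = e.inv ≫ f ≫ e.hom ≫ x' := by simp only [Category.assoc]
    _ = e.inv ≫ f ≫ x ≫ e.hom := by rw [hx]
    _ = e.inv ≫ (f ≫ x) ≫ e.hom := by simp only [Category.assoc]
    _ = (e.inv ≫ x) ≫ f ≫ e.hom := by rw [hf]; simp only [Category.assoc]
    _ = x' ≫ (e.inv ≫ f ≫ e.hom) := by rw [h1]; simp only [Category.assoc]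

end

section

variable {C : Type u} [Category.{v} C] [Preadditive C] [Linear ℚ C]
  [MonoidalCategory C] [MonoidalPreadditive C] [MonoidalLinear ℚ C] [SymmetricCategory C]
  [RightRigidCategory C] {K : Type w} [Field K] {R : SuperRealisation C K} {hU : UnitQ C}
  {G : Type} [Group G] [Fintype G] {M N P : C} {ρ : G →* End M} {τ : G →* End N}
  {j : P ⟶ M ⊗ N} {q : M ⊗ N ⟶ P}

/-- exchange of `M` and `Y` -/
def ex (X M Y : C) : (X ⊗ M) ⊗ Y ≅ (X ⊗ Y) ⊗ M :=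
  α_ X M Y ≪≫ whiskerLeftIso X (β_ M Y) ≪≫ (α_ X Y M).symm

lemma ex_last (X Y : C) {M : C} (g : M ⟶ M) :
    (X ◁ g) ▷ Y ≫ (ex X M Y).hom = (ex X M Y).hom ≫ (X ⊗ Y) ◁ g := by
  simp only [ex, Iso.trans_hom, whiskerLeftIso_hom, Iso.symm_hom, Category.assoc]
  rw [associator_naturality_middle_assoc, ← MonoidalCategory.whiskerLeft_comp_assoc,
    BraidedCategory.braiding_naturality_left, MonoidalCategory.whiskerLeft_comp_assoc]
  simp [tensor_whiskerLeft]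

lemma ex_lift (X Y M : C) (a : X ⟶ X) :
    (a ▷ M) ▷ Y ≫ (ex X M Y).hom = (ex X M Y).hom ≫ (a ▷ Y) ▷ M := by
  simp only [ex, Iso.trans_hom, whiskerLeftIso_hom, Iso.symm_hom, Category.assoc]
  rw [associator_naturality_left_assoc, ← whisker_exchange_assoc, associator_inv_naturality_left]

theorem niln (h1 : S_ONE.{v, u, w}) (hjq : IsInv ρ τ j q)
    (hκ : IsUnit (∑ g, trq hU N (τ g) • ρ g : End M)) (n : ℕ) :
    ∀ Y : C, HomNil R (Y ⊗ tp P n) → ∀ f : tp M n ⊗ Y ⟶ tp M n ⊗ Y, R.H.map f = 0 →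
      (∀ a : tp M n ⟶ tp M n, IsAct ρ n a → f ≫ a ▷ Y = a ▷ Y ≫ f) →
      IsNilpotent (show End (tp M n ⊗ Y) from f) := by
  induction n with
  | zero =>
    intro Y hY f hf _
    exact hY.retract (β_ (𝟙_ C) Y).hom (β_ (𝟙_ C) Y).inv (Iso.hom_inv_id _) _ hf
  | succ n ih =>
    intro Y hY f hf hc
    obtain ⟨-, o2, o3, o4⟩ := h1 C K R hU G M N P ρ τ j q hjq (tp M n ⊗ Y)
    obtain ⟨o1, -, -, -⟩ := h1 C K R hU G M N P ρ τ j q hjq (tp M n ⊗ Y)
    apply nil_iso (ex (tp M n) M Y)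
    generalize hf' : (ex (tp M n) M Y).inv ≫ f ≫ (ex (tp M n) M Y).hom = f'
    have hf0 : R.H.map f' = 0 := by
      rw [← hf', Functor.map_comp, Functor.map_comp, hf]; simp
    have hcg : ∀ g, f' ≫ (tp M n ⊗ Y) ◁ ((ρ g : End M) : M ⟶ M) =
        (tp M n ⊗ Y) ◁ ((ρ g : End M) : M ⟶ M) ≫ f' := by
      intro g
      rw [← hf']
      exact conj_comm _ (ex_last _ _ _) (hc _ (IsAct.last n g))
    have hca : ∀ a : tp M n ⟶ tp M n, IsAct ρ n a → f' ≫ (a ▷ Y) ▷ M = (a ▷ Y) ▷ M ≫ f' := by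
      intro a ha
      rw [← hf']
      exact conj_comm _ (ex_lift _ _ _ _) (hc _ (IsAct.lift n a ha))
    -- the transfer
    have ht : IsNilpotent (show End ((tp M n ⊗ Y) ⊗ P) from tw j q f') := by
      apply nil_iso (α_ (tp M n) Y P)
      refine ih (Y ⊗ P) ?_ _ ?_ ?_
      · refine HomNil.retract hY ((α_ Y P (tp P n)).hom ≫ Y ◁ (β_ P (tp P n)).hom)
          (Y ◁ (β_ P (tp P n)).inv ≫ (α_ Y P (tp P n)).inv) ?_
        simp only [Category.assoc]
        rw [← MonoidalCategory.whiskerLeft_comp_assoc, Iso.hom_inv_id]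
        simp
      · rw [Functor.map_comp, Functor.map_comp, o2 f' hf0]; simp
      · intro a ha
        refine conj_comm _ ?_ (o3 (a ▷ Y) f' (hca a ha))
        rw [associator_naturality_left]
    obtain ⟨k, hk⟩ := ht
    have hpow : ∀ k : ℕ, tw j q (show (tp M n ⊗ Y) ⊗ M ⟶ (tp M n ⊗ Y) ⊗ M from
          ((show End ((tp M n ⊗ Y) ⊗ M) from f') ^ k)) =
        (show End ((tp M n ⊗ Y) ⊗ P) from tw j q f') ^ k := by
      intro k
      induction k with
      | zero => exact o1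
      | succ k ihk =>
        rw [pow_succ', pow_succ']
        have h := (o4 f' hcg).1 (show (tp M n ⊗ Y) ⊗ M ⟶ (tp M n ⊗ Y) ⊗ M from
          ((show End ((tp M n ⊗ Y) ⊗ M) from f') ^ k))
        refine h.trans ?_
        rw [ihk]
        rfl
    have hcomm : ∀ k : ℕ, ∀ g, (show (tp M n ⊗ Y) ⊗ M ⟶ (tp M n ⊗ Y) ⊗ M from
          ((show End ((tp M n ⊗ Y) ⊗ M) from f') ^ k)) ≫
            (tp M n ⊗ Y) ◁ ((ρ g : End M) : M ⟶ M) =
        (tp M n ⊗ Y) ◁ ((ρ g : End M) : M ⟶ M) ≫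
          (show (tp M n ⊗ Y) ⊗ M ⟶ (tp M n ⊗ Y) ⊗ M from
          ((show End ((tp M n ⊗ Y) ⊗ M) from f') ^ k)) := by
      intro k g
      have h : Commute (show End ((tp M n ⊗ Y) ⊗ M) from f')
          (show End ((tp M n ⊗ Y) ⊗ M) from (tp M n ⊗ Y) ◁ ((ρ g : End M) : M ⟶ M)) :=
        (hcg g).symm
      exact (h.pow_left k).symm
    refine ⟨k, ?_⟩
    have hz := (o4 _ (hcomm k)).2 ((hpow k).trans hk)
    obtain ⟨κ', hκ'⟩ := hκ.exists_left_inv
    have h3 : (∑ g, trq hU N (τ g) • ρ g : End M) ≫ κ' = 𝟙 M := hκ'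
    have h4 := congrArg (fun z => z ≫ (tp M n ⊗ Y) ◁ (κ' : M ⟶ M)) hz
    simp only [Category.assoc, zero_comp] at h4
    rw [← MonoidalCategory.whiskerLeft_comp, h3, MonoidalCategory.whiskerLeft_id,
      Category.comp_id] at h4
    exact h4

end

theorem t_NILN (h1 : S_ONE.{v, u, w}) : S_NILN.{v, u, w} := by
  intro C _ _ _ _ _ _ _ _ K _ R hU G _ _ M N P ρ τ j q hjq hκ n hn f hf hc
  have hn' : HomNil R (𝟙_ C ⊗ tp P n) := HomNil.retract hn (λ_ (tp P n)).hom (λ_ (tp P n)).inv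
    (Iso.hom_inv_id _)
  apply nil_iso (ρ_ (tp M n)).symm
  refine niln h1 hjq hκ n (𝟙_ C) hn' _ ?_ ?_
  · rw [Functor.map_comp, Functor.map_comp, hf]; simp
  · intro a ha
    refine conj_comm _ ?_ (hc a ha)
    simp

end Pool.Agent.K3h14.IQ
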