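import Pool.Agent.K3h63.IQ.Stm

/-!
# Brick SPLIT of project IQ: the even and the odd part of `M` with the action of `G`
-/

set_option autoImplicit false
set_option linter.unusedSectionVars false

open CategoryTheory Limits MonoidalCategory
open Pool.Agent.Y112.SR Pool.Agent.Y112.KD Pool.Agent.Y112.SC Pool.Agent.R905
open Pool.Agent.TH829.Kim (exists_lift)
open Pool.Agent.K3h63.IQ

namespace Pool.Agent.K3h14.IQ

universe v u w

section

variable {C : Type u} [Category.{v} C] [Preadditive C]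

lemma act_retract {G : Type} [Group G] {M E : C} (ρ : G →* End M) (i : E ⟶ M) (r : M ⟶ E)
    (hir : i ≫ r = 𝟙 E)
    (hc : ∀ g, ((ρ g : End M) : M ⟶ M) ≫ (r ≫ i) = (r ≫ i) ≫ ((ρ g : End M) : M ⟶ M)) :
    ∃ ρE : G →* End E, ∀ g, i ≫ ((ρ g : End M) : M ⟶ M) = ((ρE g : End E) : E ⟶ E) ≫ i ∧
      ((ρ g : End M) : M ⟶ M) ≫ r = r ≫ ((ρE g : End E) : E ⟶ E) := by
  have h1 : ∀ g, i ≫ ((ρ g : End M) : M ⟶ M) = (i ≫ ((ρ g : End M) : M ⟶ M) ≫ r) ≫ i := by
    intro g
    have := congrArg (fun z => i ≫ z) (hc g)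
    simp only [Category.assoc, reassoc_of% hir] at this
    simp only [Category.assoc]
    exact this.symm
  have h2 : ∀ g, ((ρ g : End M) : M ⟶ M) ≫ r = r ≫ (i ≫ ((ρ g : End M) : M ⟶ M) ≫ r) := by
    intro g
    have := congrArg (fun z => z ≫ r) (hc g)
    simp only [Category.assoc, hir, Category.comp_id] at this
    exact this
  refine ⟨⟨⟨fun g => (i ≫ ((ρ g : End M) : M ⟶ M) ≫ r : E ⟶ E), ?_⟩, ?_⟩, fun g => ⟨h1 g, h2 g⟩⟩
  · change i ≫ ((ρ 1 : End M) : M ⟶ M) ≫ r = 𝟙 E
    rw [map_one]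
    change i ≫ (𝟙 M) ≫ r = 𝟙 E
    rw [Category.id_comp, hir]
  · intro g h
    change i ≫ ((ρ (g * h) : End M) : M ⟶ M) ≫ r =
      (i ≫ ((ρ h : End M) : M ⟶ M) ≫ r) ≫ (i ≫ ((ρ g : End M) : M ⟶ M) ≫ r)
    rw [map_mul]
    have h3 := congrArg (fun z => i ≫ ((ρ h : End M) : M ⟶ M) ≫ z) (h2 g)
    change i ≫ (((ρ h : End M) : M ⟶ M) ≫ ((ρ g : End M) : M ⟶ M)) ≫ r = _
    simp only [Category.assoc] at h3 ⊢
    exact h3

end

theorem t_SPLIT : S_SPLIT.{v, u, w} := by
  intro C _ _ _ _ _ _ _ _ K _ R G _ _ M ρ hC hM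
  have hc := R_charZero R
  have h2 : (2 : K) ≠ 0 := two_ne_zero
  obtain ⟨f, hf⟩ := hC
  have hff : R.H.map f ≫ R.H.map f = R.H.map f := by
    have e1 : (2 : K) • ((2 : K) • (R.H.map f ≫ R.H.map f)) = (2 : K) • ((2 : K) • R.H.map f) := by
      have e2 : (2 : K) • ((2 : K) • (R.H.map f ≫ R.H.map f)) =
          ((2 : K) • R.H.map f) ≫ ((2 : K) • R.H.map f) := by
        rw [Linear.smul_comp, Linear.comp_smul]
      rw [e2, hf, Preadditive.add_comp, Preadditive.comp_add, Preadditive.comp_add, R.par_sq]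
      simp only [Category.id_comp, Category.comp_id]
      module
    have e3 := congrArg (fun z => (2 : K)⁻¹ • ((2 : K)⁻¹ • z)) e1
    have e4 : (2 : K)⁻¹ * ((2 : K)⁻¹ * (2 * 2)) = 1 := by
      field_simp
    simpa only [smul_smul, e4, one_smul] using e3
  -- `H f` commutes with everything
  have hcf : ∀ x : M ⟶ M, R.H.map f ≫ R.H.map x = R.H.map x ≫ R.H.map f := by
    intro x
    have e1 : (2 : K) • (R.H.map f ≫ R.H.map x) = (2 : K) • (R.H.map x ≫ R.H.map f) := by
      rw [← Linear.smul_comp, ← Linear.comp_smul, hf, Preadditive.add_comp, Preadditive.comp_add,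
        R.par_natural]
      simp
    have e3 := congrArg (fun z => (2 : K)⁻¹ • z) e1
    simpa only [smul_smul, inv_mul_cancel₀ h2, one_smul] using e3
  have hcard : (Fintype.card G : ℚ) ≠ 0 := by exact_mod_cast Fintype.card_ne_zero
  have hcardK : (Fintype.card G : K) ≠ 0 := by exact_mod_cast Fintype.card_ne_zero
  -- the average
  let S : End M := ∑ g : G, ρ g⁻¹ * (show End M from f) * ρ g
  let p : End M := (Fintype.card G : ℚ)⁻¹ • S
  have hSp : Fintype.card G • p = S := by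
    rw [← Nat.cast_smul_eq_nsmul ℚ, smul_smul, mul_inv_cancel₀ hcard, one_smul]
  have hSc : ∀ h, S * ρ h = ρ h * S := by
    intro h
    simp only [S, Finset.sum_mul, Finset.mul_sum]
    refine Fintype.sum_equiv (Equiv.mulRight h) _ _ (fun g => ?_)
    simp only [Equiv.coe_mulRight, mul_inv_rev, map_mul, mul_assoc]
    rw [← mul_assoc (ρ h) (ρ h⁻¹), ← map_mul ρ h h⁻¹, mul_inv_cancel, map_one, one_mul]
  have hpc : ∀ h, p * ρ h = ρ h * p := by
    intro h
    simp only [p, smul_mul_assoc, mul_smul_comm, hSc]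
  have hHS : R.H.map (S : M ⟶ M) = Fintype.card G • R.H.map f := by
    have e1 : R.H.map (S : M ⟶ M) = ∑ g : G, R.H.map
        ((ρ g⁻¹ * (show End M from f) * ρ g : End M) : M ⟶ M) := by
      exact R.H.map_sum _ _
    rw [e1, Finset.sum_congr rfl (g := fun _ => R.H.map f), Finset.sum_const, Finset.card_univ]
    intro g _
    change R.H.map (((ρ g : End M) : M ⟶ M) ≫ f ≫ ((ρ g⁻¹ : End M) : M ⟶ M)) = _
    rw [Functor.map_comp, Functor.map_comp, hcf, ← Category.assoc, ← Functor.map_comp]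
    have e2 : ((ρ g : End M) : M ⟶ M) ≫ ((ρ g⁻¹ : End M) : M ⟶ M) = 𝟙 M := by
      change (ρ g⁻¹ * ρ g : End M) = 1
      rw [← map_mul, inv_mul_cancel, map_one]
    rw [e2]
    simp
  have hHp : R.H.map (p : M ⟶ M) = R.H.map f := by
    have e1 : Fintype.card G • R.H.map (p : M ⟶ M) = Fintype.card G • R.H.map f := by
      rw [← hHS, ← hSp]
      exact (R.H.mapAddHom.map_nsmul _ _).symm
    rw [← Nat.cast_smul_eq_nsmul K, ← Nat.cast_smul_eq_nsmul K] at e1
    have e3 := congrArg (fun z => (Fintype.card G : K)⁻¹ • z) e1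
    simpa only [smul_smul, inv_mul_cancel₀ hcardK, one_smul] using e3
  have hHn : R.H.map ((p * p - p : End M) : M ⟶ M) = 0 := by
    have e1 : ((p * p - p : End M) : M ⟶ M) =
      (show M ⟶ M from p) ≫ (show M ⟶ M from p) - (show M ⟶ M from p) := rfl
    rw [e1, Functor.map_sub, Functor.map_comp]
    have e2 : R.H.map (show M ⟶ M from p) = R.H.map f := hHp
    rw [e2, hff, sub_self]
  have hnil : IsNilpotent (p * p - p) := by
    refine hM _ hHn (fun g => ?_)
    rw [sub_mul, mul_sub, hpc, mul_assoc, hpc, ← mul_assoc, hpc, mul_assoc]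
  -- lift the idempotent in the centraliser
  let Z : Subalgebra ℚ (End M) := Subalgebra.centralizer ℚ (Set.range ρ)
  have hpZ : p ∈ Z := by
    rw [Subalgebra.mem_centralizer_iff]
    rintro _ ⟨g, rfl⟩
    exact (hpc g).symm
  obtain ⟨e, he1, hec, hHe⟩ : ∃ e : M ⟶ M, e ≫ e = e ∧
      (∀ g, ((ρ g : End M) : M ⟶ M) ≫ e = e ≫ ((ρ g : End M) : M ⟶ M)) ∧
      R.H.map e = R.H.map f := by
    have hnZ : IsNilpotent ((⟨p, hpZ⟩ : Z) * ⟨p, hpZ⟩ - ⟨p, hpZ⟩) := by
      obtain ⟨n, hn⟩ := hnil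
      exact ⟨n, Subtype.ext hn⟩
    obtain ⟨e, c, he, hec⟩ := exists_lift hnZ
    refine ⟨((e : Z) : End M), congrArg Subtype.val he, fun g => ?_, ?_⟩
    · have h := e.2
      rw [Subalgebra.mem_centralizer_iff] at h
      exact (h (ρ g) ⟨g, rfl⟩).symm
    · have e2 : ((e : Z) : End M) = p + (p * p - p) * ((c : Z) : End M) := by
        have e3 : (e : Z) = ⟨p, hpZ⟩ + ((⟨p, hpZ⟩ : Z) * ⟨p, hpZ⟩ - ⟨p, hpZ⟩) * c := by
          rw [← hec]; abel
        exact congrArg Subtype.val e3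
      have e1 : (show M ⟶ M from ((e : Z) : End M)) = (show M ⟶ M from p) +
          (show M ⟶ M from ((c : Z) : End M)) ≫ (show M ⟶ M from (p * p - p : End M)) := e2
      have e4 : R.H.map (show M ⟶ M from (p * p - p : End M)) = 0 := hHn
      have e5 : R.H.map (show M ⟶ M from p) = R.H.map f := hHp
      change R.H.map (show M ⟶ M from ((e : Z) : End M)) = _
      rw [e1, Functor.map_add, Functor.map_comp, e4, comp_zero, add_zero, e5]
  have he' : (𝟙 M - e) ≫ (𝟙 M - e) = 𝟙 M - e := by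
    rw [Preadditive.sub_comp, Preadditive.comp_sub, Preadditive.comp_sub, he1]
    simp
  obtain ⟨E, i, r, h1, h2'⟩ := IsIdempotentComplete.idempotents_split M e he1
  obtain ⟨O, i', r', h3, h4⟩ := IsIdempotentComplete.idempotents_split M (𝟙 M - e) he'
  have hpar : R.par M = (2 : K) • R.H.map (e : M ⟶ M) - 𝟙 _ := by
    rw [hHe, hf]
    simp
  obtain ⟨ρE, hρE⟩ := act_retract ρ i r h1 (fun g => by rw [h2', hec])
  obtain ⟨ρO, hρO⟩ := act_retract ρ i' r' h3 (fun g => by
    rw [h4, Preadditive.comp_sub, Preadditive.sub_comp, hec, Category.comp_id, Category.id_comp])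
  refine ⟨E, O, i, r, i', r', ρE, ρO, h1, h3, by rw [h2', h4]; abel, ?_, ?_, hρE, hρO⟩
  · have e1 : R.H.map i ≫ R.par M ≫ R.H.map r = R.par E := by
      rw [← Category.assoc, R.par_natural, Category.assoc, ← Functor.map_comp, h1]
      simp
    rw [← e1, hpar, ← h2', Preadditive.sub_comp, Preadditive.comp_sub, Linear.smul_comp,
      Linear.comp_smul, Category.id_comp, ← Functor.map_comp, ← Functor.map_comp,
      ← Functor.map_comp]
    have e2 : i ≫ (r ≫ i) ≫ r = 𝟙 E := by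
      rw [Category.assoc, reassoc_of% h1, h1]
    rw [e2, h1, CategoryTheory.Functor.map_id]
    module
  · have e1 : R.H.map i' ≫ R.par M ≫ R.H.map r' = R.par O := by
      rw [← Category.assoc, R.par_natural, Category.assoc, ← Functor.map_comp, h3]
      simp
    have e3 : (e : M ⟶ M) = 𝟙 M - r' ≫ i' := by rw [h4]; abel
    rw [← e1, hpar, Preadditive.sub_comp, Preadditive.comp_sub, Linear.smul_comp,
      Linear.comp_smul, Category.id_comp, ← Functor.map_comp, ← Functor.map_comp,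
      ← Functor.map_comp]
    have e2 : i' ≫ (e : M ⟶ M) ≫ r' = 0 := by
      rw [e3, Preadditive.sub_comp, Preadditive.comp_sub, Category.id_comp, h3, Category.assoc,
        reassoc_of% h3, h3, sub_self]
    rw [e2, h3, CategoryTheory.Functor.map_id, Functor.map_zero]
    module

end Pool.Agent.K3h14.IQ
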